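import Pool.Agent.W794.Rob19

/-!
For every dimension `d = m + 1 ≥ 3` there is a bounded convex domain of `ℝ^d` (a ball intersected
with a four-sided polyhedral cone with vertex at the centre of the ball) whose first Robin
eigenfunction is log-concave for no positive value of the Robin parameter.

Idea: if `v = log u` were concave, it would be Lipschitz near the vertex, and its blow-up `W` at the
vertex would be a concave, positively homogeneous weak solution of `ΔW = 0` in the cone, hence
linear, with inward normal derivative `α` on each of the four faces. The four inner unit normals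
satisfy `15 (n₁ + n₂) = 13 (n₃ + n₄)`, so `30 α = 26 α`, which is absurd for `α > 0`.
-/

set_option autoImplicit false

open MeasureTheory Set Metric Filter Topology
open Pool.Agent.Results.MP_ce9a4f_an.NoBoundState

namespace Pool.Agent.Results.MP_c1ff29_an.NotLogConcave

open Pool.Agent.W794.Rob

/-- a function equal almost everywhere to a minimiser is a minimiser -/
theorem minimiser_congr {m : ℕ} {Ω : Set (E (m + 1))} {α : ℝ} {u v : E (m + 1) → ℝ}
    (h : u =ᵐ[volume.restrict Ω] v) (hu : IsRobinMinimiser Ω α u) : IsRobinMinimiser Ω α v := by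
  obtain ⟨G, T, hS, hpos, hmin⟩ := hu
  have hsq : ∫ x in Ω, v x ^ 2 = ∫ x in Ω, u x ^ 2 := by
    refine integral_congr_ae ?_
    filter_upwards [h] with x hx
    rw [hx]
  refine ⟨G, T, ⟨hS.memLp_u.ae_eq h, hS.memLp_G, hS.memLp_T, ?_⟩, by rw [hsq]; exact hpos, ?_⟩
  · obtain ⟨φ, h1, h2, h3, h4⟩ := hS.approx
    refine ⟨φ, h1, ?_, h3, h4⟩
    refine h2.congr fun k => eLpNorm_congr_ae ?_
    filter_upwards [h] with x hx
    simp only [Pi.sub_apply, hx]
  · intro u' G' T' h1 h2
    rw [hsq]
    exact hmin u' G' T' h1 h2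

/-- In every dimension `d = m + 1 ≥ 3` there is a bounded convex domain `Ω` such that, for every
`α > 0`, no minimiser of the Robin Rayleigh quotient of `Ω` with parameter `α` agrees almost
everywhere on `Ω` with a positive log-concave function. -/
theorem result : ∀ m : ℕ, 2 ≤ m → ∃ Ω : Set (E (m + 1)),
    IsOpen Ω ∧ Convex ℝ Ω ∧ Bornology.IsBounded Ω ∧ Ω.Nonempty ∧
    ∀ α : ℝ, 0 < α → ∀ u : E (m + 1) → ℝ, IsRobinMinimiser Ω α u →
      ∀ v : E (m + 1) → ℝ, (∀ᵐ x ∂(volume.restrict Ω), u x = v x) → (∀ x ∈ Ω, 0 < v x) →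
        ¬ ConcaveOn ℝ Ω (fun x => Real.log (v x)) := by
  intro m hm
  obtain ⟨k, rfl⟩ : ∃ k, m = k + 2 := ⟨m - 2, by omega⟩
  refine ⟨Om (nn k), Om_open _, Om_convex _, ?_, Om_nonempty k, ?_⟩
  · refine isBounded_ball.subset (t := ball (0 : E (k + 2 + 1)) 1) ?_
    rw [Om_eq]; exact inter_subset_left
  · intro α hα u hu v huv hv
    exact no_logconcave nn_nrm nn_face (i1 := 0) (i2 := 1) (i3 := 2) (i4 := 3) (a := 15) (b := 13)
      (by norm_num) (by norm_num) (by norm_num) nn_rel hα hv (minimiser_congr huv hu)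

end Pool.Agent.Results.MP_c1ff29_an.NotLogConcave
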